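import Pool.Agent.R919.FF.Pole

/-!
# MP_557161_ag: the formula of Tate for the products of an arbitrary variety with all but few members
of a family with independent Frobenius eigenvalues

For a smooth projective variety `Z` over an algebraic closure of a finite field the defect `δ_c(Z)` is
the order of the pole at `s = c` of the zeta function of a model of `Z` over a sufficiently large
finite field, minus the rank of the group of cycles of codimension `c` modulo numerical equivalence.
It is at least zero, and the formula of Tate says that it is zero.

Let `X_i`, for `i` in any set of indices, be ordinary elliptic curves with pairwise different quadratic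
fields (which means that they are pairwise not isogenous over `F̄_p`). Or, more generally, let the
`X_i` be varieties whose Frobenius eigenvalues are independent (a product of elements of the groups
generated by the eigenvalues of different members can only be, up to a root, a power of `p` if each
factor is), and let each `X_i` be a curve of maximal rank (the Frobenius eigenvalues on `H^1` are
simple, and they have no relations but those which come from duality), or a variety such that
the formula of Tate holds for all powers of `X_i`.

* The formula of Tate holds for all products of powers of the `X_i`.
* Let `U` be **any** variety, and let `R` be the rank modulo `p` of the group generated by the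
  eigenvalues of Frobenius on its cohomology. There is a set `S` of at most `R` indices such that
  for all products `Q` of powers of finitely many of the `X_i` with `i ∉ S`, and for all varieties
  `V` whose eigenvalues are generated by those of `U` up to powers of `p` and roots, for example
  all powers `V = U^n`, and for all `c`:

  * the ranks of the cycles modulo numerical equivalence satisfy
    `ρ_c(Q × V) = ∑_{i + j = c} ρ_i(Q) ρ_j(V)`;
  * **`δ_c(Q × V) = ∑_{i + j = c} ρ_i(Q) δ_j(V)`**;
  * the formula of Tate holds for `Q × V` in codimension `c` if and only if it holds for `V` in all
    codimensions `j = c - i` such that `ρ_i(Q) ≠ 0`.

Nothing is assumed on `U`: neither the Tate conjecture, nor the semisimplicity of Frobenius, nor the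
coincidence of homological and numerical equivalence. The bound is sharp: take for `U` a product of
`R` of the elliptic curves.

The proof works in the rational vector space of the nonzero numbers modulo the powers of `p`. The spans
of the classes of the eigenvalues of the different members are independent subspaces (for elliptic
curves they are lines on which the Galois group acts by different characters), and at most `R` of
them have to be left out in order that the sum of the other ones meets the span for `U` only in
zero. Then a relation between the eigenvalues of `Q` and of `V` is trivial, and the classes of
cycles on `Q × V`, and the generalised Tate classes, split. For the powers of the curves of maximal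
rank the Tate classes are the products of pull-backs of the points and of the components of the
graphs of the powers of Frobenius.
-/

set_option autoImplicit false

open CategoryTheory AlgebraicGeometry

universe u v w

namespace Pool.Agent.Results.MP_557161_ag.FewExceptionalFactors

open Pool.Agent.H914 Pool.Agent.W534 VarClass Obj WeilCohomology Pool.Agent.R919.FF

theorem result {k : Type u} [Field k] {𝒱 : VarClass k} {ops : CycleOps 𝒱}
    (W : WeilCohomology.{u, v} ops) [IsAlgClosed W.K] (σ : W.K →+* ℂ) (p : ℕ)
    (hp : p.Prime) (Φ : FrobSystem W p) (hRH : ∀ Z : 𝒱.Obj, RiemannHyp Φ σ Z)
    {I : Type w} (X : I → 𝒱.Obj) (hfam : IndependentFamily Φ σ X) :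
    (∀ (F : Finset I) (Q : 𝒱.Obj), IsMixed X F Q → ∀ c ≤ Q.dim, PoleFormula Φ σ Q c) ∧
    ∀ (U : 𝒱.Obj) (R : ℕ), RankModLe p (eigenvalues Φ σ U) R →
      ∃ S : Finset I, S.card ≤ R ∧ ∀ (F : Finset I) (Q : 𝒱.Obj), IsMixed X F Q → Disjoint F S →
        (∀ V : 𝒱.Obj, GeneratedBy Φ σ U V → DefectsOf Φ σ Q V) ∧
        ∀ n : ℕ, DefectsOf Φ σ Q (power U n) :=
  final_few W σ p hp Φ hRH X hfam

end Pool.Agent.Results.MP_557161_ag.FewExceptionalFactors
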