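import Pool.Agent.R413.CV.Final

/-!
The zeros `u q ^ (-w / 2)`, `u` any root of unity, of the L-functions of representations of
`ℓ`-power image of the fundamental groups of the varieties over finite fields, for a positive
proportion of the primes `ℓ`; Tate's conjecture on the poles of the zeta function for the coverings of
`ℓ`-power degree.
-/

set_option autoImplicit false
set_option maxHeartbeats 1000000

open Module Pool.Agent.TH639.SN

namespace Pool.Agent.Results.MP_557161_ag.GeometricCoverings

/-- The set contains a positive proportion of the primes: there is a constant `c > 0` such that for all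
large `x` at least `c π(x)` of the primes up to `x` are in the set. -/
def PositiveDensity (S : Set ℕ) : Prop :=
  ∃ c : ℝ, 0 < c ∧ ∃ x₀ : ℕ, ∀ x : ℕ, x₀ ≤ x →
    c * Nat.primeCounting x ≤ Set.ncard {p : ℕ | p ≤ x ∧ p.Prime ∧ p ∈ S}

/-- The number is not zero and one of its positive powers is real. -/
def HasRealPower (a : ℂ) : Prop := a ≠ 0 ∧ ∃ w : ℕ, 0 < w ∧ (a ^ w).im = 0

/-- The number is a root of unity times `q ^ (w / 2)` for a `w ≥ 0`. -/
def IsTwistedPower (q : ℕ) (a : ℂ) : Prop := ∃ s w : ℕ, 0 < s ∧ (a ^ 2) ^ s = ((q : ℂ) ^ w) ^ s

/-- The product of the `1 - a T` over the `a` in the multiset. -/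
noncomputable def polynomialOf (P : Multiset ℂ) : PowerSeries ℂ :=
  (P.map fun a => 1 - PowerSeries.C a * PowerSeries.X).prod

section defs

variable {k : Type} [Field k] {ι : Type} {m : ℕ}

/-- The closed points of the subset of affine space of dimension `m` given by the polynomials `G i` and
the condition `Q` on the set of all `i` with `G i = 0`. Every constructible subset is of this form; so
every variety is, up to a decomposition into finitely many locally closed pieces. -/
def ClosedPoints (G : ι → MvPolynomial (Fin m) k) (Q : Set ι → Prop) : Type :=
  {z : SpacePt m k // Q {i | normValue m k (G i) z = 0}}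

/-- The set over `k'` given by the `G i` and `Q` has `∑ c ^ [E : k] - ∑ b ^ [E : k]` points over `E`
for all finite extensions `E` of `k'`, where `c` runs through `C` and `b` through `B`. -/
def HasPoints (k : Type) [Field k] {k' : Type} [Field k'] [Algebra k k']
    (G : ι → MvPolynomial (Fin m) k') (Q : Set ι → Prop) (C B : Multiset ℂ) : Prop :=
  ∀ (E : Type) [Field E] [Finite E] [Algebra k E] [Algebra k' E] [IsScalarTower k k' E],
    (Nat.card {x : Fin m → E // Q {i | MvPolynomial.aeval x (G i) = 0}} : ℂ) =
      (C.map fun c => c ^ finrank k E).sum - (B.map fun b => b ^ finrank k E).sum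

/-- The product over the closed points `z` of the products of the `1 - a T ^ (deg z)` for `a` in `A z`.
If `A z` consists of the eigenvalues of `σ(Frob_z)` this is the inverse of the L-function of the
representation `σ`. -/
noncomputable def lInverse (G : ι → MvPolynomial (Fin m) k) (Q : Set ι → Prop)
    (A : ClosedPoints G Q → Multiset ℂ) : PowerSeries ℂ :=
  eulerProduct (fun z : ClosedPoints G Q => deg m k z.1) fun z =>
    ((A z).map fun a => 1 - PowerSeries.C a * PowerSeries.X ^ deg m k z.1).prod

end defs

open Classical in
/-- **Tate classes over all finite extensions in the coverings of `ℓ`-power degree of all varieties, for a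
positive proportion of the primes `ℓ`.**

Let `k` be a finite field, and `U` a variety over `k` (a constructible subset of an affine space; of any
dimension) with `∑ c ^ d - ∑ b ^ d` points over the extension of degree `d`: `C` and `B` are the
eigenvalues of the Frobenius on the compactly supported cohomology of even and of odd degree. Let `δ` be
the number of the elements of `C` minus the number of the elements of `B` which have a real power; by the
Riemann hypothesis for varieties these are the numbers `u q ^ (w / 2)` with roots of unity `u`. Let `r`
and `N` be any positive integers.

Theorem. There is a set `S` of primes of positive density such that for ALL `ℓ` in `S`, ALL extensions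
`k'` of `k` whose degree divides `r (ℓ - 1) ℓ ^ j` for some `j` (this contains `k(μ_(ℓ ^ n))`
for all `n`), ALL forms of `U` over `k'` (varieties with the same numbers of points over the extensions
of `k'`), and ALL representations `σ` of the fundamental group of the form with image a finite
`ℓ`-group (more generally, for all families `A z` of `d` roots of unity of `ℓ`-power order) with
`1 / L(σ, T) = ∏ (1 - α T) / ∏ (1 - β T)`, `α` in `P`, `β` in `D`: if `P` has at most `N`
elements, at most `|D| + d δ` of them are of the form `u q' ^ (w / 2)` with ANY root of unity
`u` and `w ≥ 0`, `q' = #k'`; if `D` has at most `N` elements, at most `|P| - d δ` of them are of this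
form. (If `d` is bounded, so are `P` and `D` for tame coverings.)

The numbers of this form with `w = 2 n` are the eigenvalues which become `q'' ^ n` over some finite
extension with `q''` elements, that is the poles and zeros at `s = n` of the zeta functions over all
finite extensions. So let `δ = 0` and let the cohomology of `U` with coefficients in the
characters `χ ≠ 1` of `ℓ`-power order be concentrated in even degree. Then for ALL abelian coverings
`U'` of `U` over `k'` of `ℓ`-power degree with `k'` as above the zeta function of `U'` has over ALL finite
extensions of `k'` the same poles and zeros at `s = n` as that of `U`. If `U` is open in a smooth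
projective surface `X` which satisfies Tate's conjecture over all finite extensions of `k`, so does every
smooth projective compactification `X'` of `U'`: the classes of the boundary and of the divisors of `X`
account for all poles of the zeta function at `s = 1`.

Examples. (1) Let `a`, `b` be coprime and `F = c x ^ b + d t ^ a` plus terms `x ^ i t ^ j` with
`a i + b j < a b`, `c d ≠ 0`, such that the curve `Z : F = 0` is smooth, and `U = A² - Z`. Then
`C` consists of `q ^ 2` and the Frobenius eigenvalues of `Z`, `B = {q}`. If `Z` has no supersingular
Frobenius eigenvalue, then `δ = 0`, and Tate's conjecture holds over ALL finite extensions of `k` for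
the surfaces `y ^ (ℓ ^ n) = F(x, t)` (smooth projective models), for a positive proportion of
the primes `ℓ` and all `n`. The geometric genus tends to infinity with `n`. The Jacobian of
`y ^ (ℓ ^ n) = F(x, t)` over the field of rational functions in `t` over an algebraic closure of `k` has
rank zero. (2) The same holds for the hypersurfaces
`y ^ (ℓ ^ n) = F(x_1, ..., x_m)` with `m` even, where `F` has degree `e` prime to `ℓ` and a smooth leading
form, and `F = 0` is smooth: `C` consists of `q ^ m` and the Frobenius eigenvalues on the middle
cohomology of `F = 0`, and `B = {q ^ (m - 1)}`. If none of the former is a root of unity times a power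
of `√q`, the zeta function of the hypersurface `y ^ (ℓ ^ n) = F` has, over all finite extensions,
no zeros or poles at integers except the pole at `s = m`. (3) The number `δ` is additive and is one
for the plane, for a point, and for smooth curves with one point at infinity and without
supersingular Frobenius eigenvalue; so one may remove from the plane any number of such curves, if each
meets the preceding ones in exactly one closed point which is rational over `k`. -/
theorem result (k : Type) [Field k] [Finite k] (C B : Multiset ℂ) (hC : ∀ c ∈ C, IsIntegral ℤ c)
    (hB : ∀ b ∈ B, IsIntegral ℤ b) (r N : ℕ) (hr : 0 < r) :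
    ∃ S : Set ℕ, PositiveDensity S ∧ ∀ ℓ ∈ S, ℓ.Prime ∧
      ∀ (j n d m : ℕ) (k' : Type) [Field k'] [Finite k'] [Algebra k k'] (ι : Type)
        (G : ι → MvPolynomial (Fin m) k') (Q : Set ι → Prop) (A : ClosedPoints G Q → Multiset ℂ)
        (P D : Multiset ℂ),
        finrank k k' ∣ r * (ℓ - 1) * ℓ ^ j → HasPoints k G Q C B →
        (∀ z, (A z).card = d) → (∀ z, ∀ a ∈ A z, a ^ ℓ ^ n = 1) → (∀ b ∈ D, IsIntegral ℤ b) →
        lInverse G Q A * polynomialOf D = polynomialOf P →
          (P.card ≤ N →
            P.countP (IsTwistedPower (Nat.card k')) + d * B.countP HasRealPower ≤
              D.card + d * C.countP HasRealPower) ∧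
          (D.card ≤ N →
            D.countP (IsTwistedPower (Nat.card k')) + d * C.countP HasRealPower ≤
              P.card + d * B.countP HasRealPower) := by
  obtain ⟨S, hS1, hS2⟩ := Pool.Agent.R413.CV.geo k hC hB r N hr
  refine ⟨S, hS1, fun ℓ hℓ => ?_⟩
  obtain ⟨h1, h3⟩ := hS2 ℓ hℓ
  refine ⟨h1, ?_⟩
  intro j n d m k' _ _ _ ι G Q A P D hdeg hpts hd hA hD hl
  have hfd : Module.Finite k k' := Module.Finite.of_finite
  have hq : Nat.card k' = Nat.card k ^ finrank k k' := Module.natCard_eq_pow_finrank
  have hr0 : finrank k k' ≠ 0 := finrank_pos.ne'
  have h4 := h3 j n d (finrank k k') hdeg hr0 (ClosedPoints G Q) (fun z => deg m k' z.1) A P D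
    (Pool.Agent.R413.DT.finite_closed G Q) hd hA hD (Pool.Agent.R413.CV.zeta_ext hpts) hl
  rw [← hq] at h4
  simp only [Multiset.countP_eq_card_filter]
  exact h4

end Pool.Agent.Results.MP_557161_ag.GeometricCoverings
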