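import Pool.Agent.R905.GB.Pole

/-!
# Tate's conjecture on poles and cycle classes on the complements of closed subvarieties

`X` is a smooth projective variety of pure dimension `d = i + j` over a finite field `𝔽`, and `n = j` is
the codimension of the cycles of dimension `i`. `C : Chow V` are the Chow groups
`C.CH Y i = CH_i(Y)_ℚ` of the varieties `Y : V` over `𝔽`, and for each prime `ℓ : Λ` different from the
characteristic and `F ℓ = ℚ_ℓ`, `T ℓ : Homology C (F ℓ)` are the `ℓ`-adic (Borel-Moore) homology groups
`(T ℓ).E Y i = H_{2i}(Ȳ, ℚ_ℓ(i))`, which are `H^{2(d-i)}(Ȳ, ℚ_ℓ(d-i))` for smooth `Y` of dimension `d`, with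
the Frobenius and the cycle class maps.

`B` is the pairing of intersection numbers between `CH_i(X)_ℚ` and `CH_j(X)_ℚ`; so `Num B` is
`A^n_num(X) ⊗ ℚ`. The number `p` is the order of the pole of `ζ(X, s)` at `s = n`, which is also the order
of the pole at `s = d - n`. The known facts which are used (as properties in the definition
`IsSmoothProjective`) are the duality of Poincaré and the formula of Grothendieck and Deligne: `p` is
the multiplicity of the eigenvalue `1` of the Frobenius on `H^{2n}(X̄, ℚ_ℓ(n))`. The known facts for a
closed subvariety `Z` of `X` of dimension at most `i` with its complement `U` are the properties in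
`ClosedPair`: the exactness of `CH_i(Z) → CH_i(X) → CH_i(U) → 0` and of the same sequence for the
generalized eigenspaces for the eigenvalue `1` in the homology (`H_{2i-1}(Z̄, ℚ_ℓ(i))` has weights `≥ 1`),
and that this generalized eigenspace for `Z` is spanned by classes of cycles. `HasSupports` says that
each finite set of cycles of dimension `i` on `X` has a support `Z` of dimension at most `i`.

Theorem. For each prime `ℓ` the following are equivalent:

1. `ord_{s = n} ζ(X, s) = - rk A^n_num(X)`, the conjecture of Tate for `X` and `n`;
2. for each closed subset `Z` of `X` of codimension at least `n` the cycle class map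
   `CH^n(X ∖ Z) ⊗ ℚ_ℓ → H^{2n}(X̄ ∖ Z̄, ℚ_ℓ(n))^G` is surjective, and the cycle class map of `X` in codimension
   `d - n` is surjective onto the invariants;
3. the condition of 2 for all complements holds in both codimensions `n` and `d - n`.

In particular 2 and 3 do not depend on `ℓ`. Tate's conjecture Q1 for all smooth projective varieties is
equivalent to the surjectivity of the cycle class maps for the complements of closed subsets of the
given codimension in smooth projective varieties, for one `ℓ`: these are smooth varieties.

Tate proved that 1 is equivalent to surjectivity for `X` in both codimensions together with the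
semisimplicity of the eigenvalue `1` on `H^{2n}(X̄, ℚ_ℓ(n))`. What is new here is that the semisimplicity
is a consequence of the surjectivity for the complements: if the components of `Z` span all algebraic
classes in `H^{2n}(X̄, ℚ_ℓ(n))`, then all cycle classes of `X ∖ Z` are zero, so by assumption there are no
invariants in `H^{2n}(X̄ ∖ Z̄, ℚ_ℓ(n))`, hence no generalized eigenvectors for the eigenvalue `1`, and the
generalized eigenvectors of `X` come from `Z`.
-/

set_option autoImplicit false

namespace Pool.Agent.Results.MP_557161_ag.OpenComplements

open Pool.Agent.R905.GB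

theorem result {V Λ : Type} {C : Chow V} {F : Λ → Type} [∀ l, Field (F l)]
    [∀ l, Algebra ℚ (F l)] (T : ∀ l : Λ, Homology C (F l)) {X : V} {i j : ℤ}
    (B : Pairing ℚ (C.CH X i) (C.CH X j)) (p : ℕ) (hX : IsSmoothProjective T B p)
    (hi : ∀ l, HasSupports (T l) X i) (hj : ∀ l, HasSupports (T l) X j) (l : Λ) :
    (Module.finrank ℚ (Num B) = p ↔ OpenTate (T l) X i ∧ (T l).Surj X j) ∧
      (Module.finrank ℚ (Num B) = p ↔ OpenTate (T l) X i ∧ OpenTate (T l) X j) :=
  pole_iff hX l (hi l) (hj l)

end Pool.Agent.Results.MP_557161_ag.OpenComplements
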