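import Pool.Agent.R934.Poly
import Pool.Agent.R934.PolyLim

/-!
# MP_557161_ag: the formula of Tate up to a polynomial factor, for all varieties

Let `X` and `U` be **any** two smooth projective varieties over an algebraic closure of a finite field,
with total Betti numbers `b` and `c`. For `n = 0, 1, 2, …` and `0 ≤ j ≤ dim U` let

* `z n j` be the order of the pole at the integer `s = (n + 1) dim X + j` of the zeta function of
  `X ^ (2 n + 2) × U` over all sufficiently large finite fields,
* `r n j` the rank of the group of the cycles of codimension `(n + 1) dim X + j` on `X ^ (2 n + 2) × U`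
  modulo numerical equivalence.

The formula of Tate says that `z n j = r n j`. We prove, with no assumption on `X` and `U`, that

  `r n j ≤ z n j ≤ c * (n + 2) ^ (b ^ 2) * r n j`,

so that the formula of Tate is true up to a factor which is polynomial in `n`, whereas both sides grow
exponentially if `dim X > 0`: both `(r n j) ^ (1 / (n + 1))` and `(z n j) ^ (1 / (n + 1))` tend to `b ^ 2`,
the largest possible growth rate, and `log (z n j) / log (r n j)` tends to `1`.

For `U` a point this is the case of the centre of symmetry of the zeta functions of the even powers of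
`X`; for `U = X ^ m` the theorem is about the integers `s` with `|2 s - N dim X| ≤ m dim X` and the zeta
functions of all powers `X ^ N`, `N ≥ m + 2` (`N - m` even).

The setting is that of the starting files: `W` is a Weil cohomology theory on a class of smooth proper
varieties closed under products, `Φ` the system of Frobenius endomorphisms, `RiemannHyp` the Riemann
hypothesis (the theorem of Deligne), `Big ops X D` says that `D ^ dim X ≠ 0` for the divisor `D`.
-/

set_option autoImplicit false

open CategoryTheory AlgebraicGeometry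

universe u v

namespace Pool.Agent.Results.MP_557161_ag.PolynomialFactor

open Pool.Agent.H914 Pool.Agent.W534 Pool.Agent.Y163 Pool.Agent.R934 VarClass Obj WeilCohomology

/-- The formula of Tate up to a polynomial factor: for all `X` and `U` the order of the pole at
`(n + 1) dim X + j` of the zeta function of `sq X n × U = X ^ (2 n + 2) × U` is between the rank of the
group of cycles of codimension `(n + 1) dim X + j` modulo numerical equivalence and the product of this
rank with `c * (n + 2) ^ (b ^ 2)`. -/
theorem result {k : Type u} [Field k] {𝒱 : VarClass k} {ops : CycleOps 𝒱}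
    (W : WeilCohomology.{u, v} ops) [IsAlgClosed W.K] (σ : W.K →+* ℂ) (p : ℕ) (hp : p.Prime)
    (Φ : FrobSystem W p) (hRH : ∀ Z : 𝒱.Obj, RiemannHyp Φ σ Z) (X U : 𝒱.Obj) (D : X.Cycles)
    (hD : X.IsCyc 1 D) (hbigD : Big ops X D) (E : U.Cycles) (hE : U.IsCyc 1 E)
    (hbigE : Big ops U E) :
    ∃ z r : ℕ → ℕ → ℕ,
      (∀ n, ∀ j ≤ U.dim,
        PoleOrderIs Φ σ ((sq X n).prod U) ((n + 1) * X.dim + j) (z n j) ∧
        r n j = numRank ops ((sq X n).prod U) ((n + 1) * X.dim + j) ∧
        0 < r n j ∧ r n j ≤ z n j ∧
        z n j ≤ Module.finrank W.K (W.H U) * (n + 2) ^ (Module.finrank W.K (W.H X) ^ 2) * r n j) ∧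
      (0 < X.dim → ∀ j ≤ U.dim,
        Filter.Tendsto (fun n => Real.log (z n j) / Real.log (r n j)) Filter.atTop (nhds 1) ∧
        Filter.Tendsto (fun n => (r n j : ℝ) ^ ((1 : ℝ) / (n + 1))) Filter.atTop
          (nhds ((Module.finrank W.K (W.H X) : ℝ) ^ 2)) ∧
        Filter.Tendsto (fun n => (z n j : ℝ) ^ ((1 : ℝ) / (n + 1))) Filter.atTop
          (nhds ((Module.finrank W.K (W.H X) : ℝ) ^ 2))) := by
  obtain ⟨z, hz⟩ := poly_law hp.one_lt Φ σ hRH hD hbigD hE hbigE
  refine ⟨z, fun n j => numRank ops ((sq X n).prod U) ((n + 1) * X.dim + j),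
    fun n j hj => ?_, fun hX j hj => ?_⟩
  · obtain ⟨h1, h2, h3, h4, h5⟩ := hz n j hj
    refine ⟨h1, rfl, h2, h3, h4.trans ?_⟩
    calc _ ≤ ((n + 2) ^ (Module.finrank W.K (W.H X) ^ 2) *
          numRank ops ((sq X n).prod U) ((n + 1) * X.dim + j)) * Module.finrank W.K (W.H U) :=
        Nat.mul_le_mul_right _ h5
      _ = _ := by ring
  · refine growth_lim (two_le_finrank hD hbigD hX) (finrank_pos_of_big hE hbigE)
      (Module.finrank W.K (W.H X) ^ 2) (fun n => (hz n j hj).2.1) (fun n => (hz n j hj).2.2.1)
      (fun n => (hz n j hj).2.2.2.1) (fun n => (hz n j hj).2.2.2.2)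

end Pool.Agent.Results.MP_557161_ag.PolynomialFactor
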